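import Pool.Agent.Work.MP_2738db_nt_C.Interface

/-!
Block KE: bound for `k`, `c` even.
-/

set_option autoImplicit false

namespace Pool.Agent.Work.MP_2738db_nt_C.helper2

/-- **KE** -/
theorem ke (hWS : MP_2738db_nt_S.Stmt_WS) : Stmt_Ke := by
  obtain ⟨C, hC1, hC⟩ := hWS
  refine ⟨C + 1, by linarith, ?_⟩
  intro u V k l A U hu hV huV hu2 h8 hk hl hA hU hlU hlu hlV hE
  have hk0 : k ≠ 0 := by omega
  have hV0 : V ≠ 0 := by omega
  -- decomposition of `V`
  obtain ⟨t, w, hw2, hVw⟩ := Nat.exists_eq_two_pow_mul_odd hV0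
  have hw0 : w ≠ 0 := by rintro rfl; simp at hw2
  have ht : t ≠ 0 := by
    rintro rfl
    have h1 : 2 ∣ V ^ k := dvd_trans (by norm_num) h8
    have h2 : 2 ∣ V := Nat.prime_two.dvd_of_dvd_pow h1
    rw [hVw] at h2
    obtain ⟨d, hd⟩ := hw2
    omega
  have hw1 : ¬ 2 ∣ w := by
    obtain ⟨d, hd⟩ := hw2
    omega
  have hVk : V ^ k = 2 ^ (t * k) * w ^ k := by
    rw [hVw, mul_pow, ← pow_mul]
  have htk : 3 ≤ t * k := by
    have h1 : 2 ^ 3 ∣ 2 ^ (t * k) := by
      have h2 : Nat.Coprime (2 ^ 3) (w ^ k) := by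
        apply Nat.Coprime.pow
        exact (Nat.Prime.coprime_iff_not_dvd Nat.prime_two).2 hw1
      have h3 : 2 ^ 3 ∣ 2 ^ (t * k) * w ^ k := by rw [← hVk]; exact h8
      exact h2.dvd_of_dvd_mul_right h3
    exact (Nat.pow_dvd_pow_iff_le_right (by norm_num)).1 h1
  obtain ⟨X, hX⟩ : ∃ X : ℕ, V ^ k = 4 * X := by
    obtain ⟨d, hd⟩ := h8
    exact ⟨2 * d, by omega⟩
  have hXe : X = 2 ^ (t * k - 2) * w ^ k := by
    have h1 : 4 * X = 4 * (2 ^ (t * k - 2) * w ^ k) := by
      rw [← hX, hVk]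
      have h2 : t * k = (t * k - 2) + 2 := by omega
      conv_lhs => rw [h2, pow_add]
      ring
    omega
  have hVge : 2 ≤ V := by
    rw [hVw]
    have h1 : 2 ^ 1 ≤ 2 ^ t := Nat.pow_le_pow_right (by norm_num) (by omega)
    have h2 : 1 ≤ w := by omega
    nlinarith
  have hwV : w ≤ V := by
    rw [hVw]
    exact Nat.le_mul_of_pos_left _ (by positivity)
  have hVk1 : 1 ≤ V ^ k := Nat.one_le_pow _ _ (by omega)
  have hX1 : 1 ≤ X := by omega
  have huk1 : 1 ≤ u ^ k := Nat.one_le_pow _ _ hu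
  have hlog2 : Real.log 2 ≤ 1 := by
    have := Real.log_two_lt_d9; linarith
  have hlog2' : (1 : ℝ) / 2 ≤ Real.log 2 := by
    have := Real.log_two_gt_d9; linarith
  have hlogw : Real.log w ≤ U := by
    refine le_trans (Real.log_le_log ?_ ?_) hlV
    · exact_mod_cast (by omega : 0 < w)
    · exact_mod_cast hwV
  -- the sets
  obtain ⟨S, hS1, hS2, hS3⟩ : ∃ S : Finset ℕ, (∀ b ∈ S, 2 ≤ b ∧ Real.log b ≤ U) ∧
      (S.card : ℝ) ≤ U ∧ X ∈ Submonoid.closure (S : Set ℕ) := by
    rcases Nat.lt_or_ge w 2 with h | h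
    · have hw : w = 1 := by omega
      refine ⟨{2}, ?_, ?_, ?_⟩
      · intro b hb
        rw [Finset.mem_singleton] at hb
        subst hb
        refine ⟨le_refl _, ?_⟩
        push_cast
        linarith
      · simp; linarith
      · rw [hXe, hw, one_pow, mul_one]
        exact pow_mem (Submonoid.subset_closure (by simp)) _
    · refine ⟨{2, w}, ?_, ?_, ?_⟩
      · intro b hb
        rw [Finset.mem_insert, Finset.mem_singleton] at hb
        rcases hb with hb | hb
        · subst hb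
          refine ⟨le_refl _, ?_⟩
          push_cast
          linarith
        · subst hb
          exact ⟨h, hlogw⟩
      · have h1 : ({2, w} : Finset ℕ).card ≤ 2 := Finset.card_le_two
        have h2 : ((({2, w} : Finset ℕ).card : ℕ) : ℝ) ≤ 2 := by exact_mod_cast h1
        linarith
      · rw [hXe]
        exact mul_mem (pow_mem (Submonoid.subset_closure (by simp)) _)
          (pow_mem (Submonoid.subset_closure (by simp)) _)
  obtain ⟨T, hT1, hT2, hT3⟩ : ∃ T : Finset ℕ, (∀ b ∈ T, 2 ≤ b ∧ Real.log b ≤ U) ∧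
      (T.card : ℝ) ≤ U ∧ u ^ k ∈ Submonoid.closure (T : Set ℕ) := by
    rcases Nat.lt_or_ge u 2 with h | h
    · have hu1 : u = 1 := by omega
      refine ⟨∅, ?_, ?_, ?_⟩
      · intro b hb; simp at hb
      · simp; linarith
      · rw [hu1, one_pow]; exact one_mem _
    · refine ⟨{u}, ?_, ?_, ?_⟩
      · intro b hb
        rw [Finset.mem_singleton] at hb
        subst hb
        exact ⟨h, hlu⟩
      · simp; linarith
      · exact pow_mem (Submonoid.subset_closure (by simp)) _
  have hcop : Nat.Coprime X (u ^ k) := by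
    have h1 : Nat.Coprime (V ^ k) (u ^ k) := Nat.Coprime.pow _ _ huV.symm
    exact Nat.Coprime.coprime_dvd_left ⟨4, by rw [hX]; ring⟩ h1
  have hW := hC S T l A X (u ^ k) U hl hS1 hT1 hS2 hT2 hS3 hT3 hcop hA
    (by
      rcases hE with h | h | h
      · right; left; omega
      · left; omega
      · right; right; omega) hU hlU
  -- conclusion
  have hUC : (2 : ℝ) ≤ U ^ C := by
    calc (2 : ℝ) ≤ U := hU
      _ = U ^ (1 : ℝ) := (Real.rpow_one U).symm
      _ ≤ U ^ C := Real.rpow_le_rpow_of_exponent_le (by linarith) hC1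
  have hkl : (k : ℝ) * Real.log 2 ≤ Real.log 4 + Real.exp (U ^ C) := by
    have h1 : Real.log ((V ^ k : ℕ) : ℝ) = k * Real.log V := by
      push_cast
      rw [Real.log_pow]
    have h2 : Real.log 2 ≤ Real.log V :=
      Real.log_le_log (by norm_num) (by exact_mod_cast hVge)
    have h3 : Real.log ((V ^ k : ℕ) : ℝ) ≤ Real.log 4 + Real.log (X * (u ^ k : ℕ)) := by
      rw [← Real.log_mul (by norm_num) (by positivity)]
      apply Real.log_le_log
      · exact_mod_cast hVk1
      · rw [hX]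
        push_cast
        have h4 : (1 : ℝ) ≤ (u : ℝ) ^ k := by exact_mod_cast huk1
        have h5 : (1 : ℝ) ≤ (X : ℝ) := by exact_mod_cast hX1
        nlinarith
    have h6 : (k : ℝ) * Real.log 2 ≤ k * Real.log V :=
      mul_le_mul_of_nonneg_left h2 (by positivity)
    linarith
  have hlog4 : Real.log 4 ≤ 2 := by
    have : Real.log 4 = 2 * Real.log 2 := by
      rw [show (4 : ℝ) = 2 ^ 2 by norm_num, Real.log_pow]; norm_num
    rw [this]; linarith
  have hexp1 : (1 : ℝ) ≤ Real.exp (U ^ C) := Real.one_le_exp (by linarith)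
  have hk4 : (k : ℝ) ≤ 6 * Real.exp (U ^ C) := by
    have h1 : (0 : ℝ) ≤ k := by positivity
    nlinarith
  have h6 : Real.log 6 ≤ 2 := by
    have h7 : (6 : ℝ) ≤ Real.exp 2 := by
      have h8 := Real.exp_one_gt_d9
      have h9 : Real.exp 2 = Real.exp 1 * Real.exp 1 := by rw [← Real.exp_add]; norm_num
      rw [h9]; nlinarith
    calc Real.log 6 ≤ Real.log (Real.exp 2) := Real.log_le_log (by norm_num) h7
      _ = 2 := Real.log_exp 2
  calc Real.log k ≤ Real.log (6 * Real.exp (U ^ C)) :=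
        Real.log_le_log (by exact_mod_cast (by omega : 0 < k)) hk4
    _ = Real.log 6 + U ^ C := by
        rw [Real.log_mul (by norm_num) (Real.exp_pos _).ne', Real.log_exp]
    _ ≤ U ^ C + U ^ C := by linarith
    _ = 2 * U ^ C := by ring
    _ ≤ U * U ^ C := mul_le_mul_of_nonneg_right hU (by linarith)
    _ = U ^ (C + 1) := by
        rw [Real.rpow_add (by linarith), Real.rpow_one, mul_comm]

end Pool.Agent.Work.MP_2738db_nt_C.helper2
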