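import Pool.Agent.Work.MP_2738db_nt_C.Interface

/-!
Block STE: `x ^ 2 - y ^ 2 = c ^ k`, `c` even.
-/

set_option autoImplicit false

namespace Pool.Agent.Work.MP_2738db_nt_C.helper2

/-- **STE** -/
theorem ste : Stmt_Ste := by
  intro x y c k hxy hy hc h2c hk h
  have hck : 2 ∣ c ^ k := dvd_pow h2c (by omega)
  have hcpos : 1 ≤ c ^ k := Nat.one_le_pow _ _ hc
  have hlt : y < x := by
    by_contra hle
    have : x ^ 2 ≤ y ^ 2 := Nat.pow_le_pow_left (not_lt.1 hle) 2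
    omega
  -- parity
  have hpar : x % 2 = y % 2 := by
    obtain ⟨d, hd⟩ := hck
    have h1 : (y ^ 2 + 2 * d) % 2 = x ^ 2 % 2 := by rw [← hd, h]
    rcases Nat.mod_two_eq_zero_or_one x with hx | hx <;>
      rcases Nat.mod_two_eq_zero_or_one y with hy' | hy' <;>
      simp [Nat.add_mod, Nat.pow_mod, hx, hy', Nat.mul_mod] at h1 ⊢
  have hxo : x % 2 = 1 := by
    rcases Nat.mod_two_eq_zero_or_one x with hx | hx
    · exfalso
      have h1 : 2 ∣ x := Nat.dvd_of_mod_eq_zero hx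
      have h2 : 2 ∣ y := Nat.dvd_of_mod_eq_zero (by omega)
      have h3 : 2 ∣ Nat.gcd x y := Nat.dvd_gcd h1 h2
      rw [Nat.Coprime] at hxy
      rw [hxy] at h3
      omega
    · exact hx
  have hyo : y % 2 = 1 := by omega
  obtain ⟨r, s, hr, hs, hr1, hs1⟩ : ∃ r s : ℕ, x = r + s ∧ s = y + r ∧ 1 ≤ r ∧ 1 ≤ s := by
    refine ⟨(x - y) / 2, (x + y) / 2, ?_, ?_, ?_, ?_⟩ <;> omega
  have hprod : r * (4 * s) = c ^ k := by
    have h1 : y ^ 2 + c ^ k = (r + s) ^ 2 := by rw [h, hr]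
    rw [hs] at h1 ⊢
    nlinarith
  have hcop : Nat.Coprime r s := by
    have h1 : Nat.gcd r s ∣ x := by
      rw [hr]; exact dvd_add (Nat.gcd_dvd_left r s) (Nat.gcd_dvd_right r s)
    have h2 : Nat.gcd r s ∣ y := by
      have h3 : y = s - r := by omega
      rw [h3]
      exact Nat.dvd_sub (Nat.gcd_dvd_right r s) (Nat.gcd_dvd_left r s)
    have h3 : Nat.gcd r s ∣ Nat.gcd x y := Nat.dvd_gcd h1 h2
    rw [Nat.Coprime] at hxy ⊢
    rw [hxy] at h3
    exact Nat.dvd_one.1 h3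
  have hk0 : k ≠ 0 := by omega
  -- the core step: `r'` odd, `s'` even
  have core : ∀ r' s' : ℕ, r' % 2 = 1 → s' % 2 = 0 → 1 ≤ r' → 1 ≤ s' → Nat.Coprime r' s' →
      r' * (4 * s') = c ^ k →
      ∃ u V : ℕ, c = u * V ∧ 1 ≤ u ∧ 1 ≤ V ∧ Nat.Coprime u V ∧ ¬ 2 ∣ u ∧ 8 ∣ V ^ k ∧
        r' = u ^ k ∧ 4 * s' = V ^ k := by
    intro r' s' hro hse hr' hs' hc' hp
    have h4 : Nat.Coprime r' 4 := by
      have h2 : Nat.Coprime r' 2 := by
        rw [Nat.coprime_comm]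
        exact (Nat.Prime.coprime_iff_not_dvd Nat.prime_two).2 (by omega)
      have : Nat.Coprime r' (2 ^ 2) := Nat.Coprime.pow_right 2 h2
      simpa using this
    have h5 : Nat.Coprime r' (4 * s') := Nat.Coprime.mul_right h4 hc'
    obtain ⟨u, hu⟩ := exists_eq_pow_of_mul_eq_pow (Nat.isUnit_iff.2 h5) hp
    have hp' : (4 * s') * r' = c ^ k := by rw [mul_comm]; exact hp
    obtain ⟨V, hV⟩ := exists_eq_pow_of_mul_eq_pow (Nat.isUnit_iff.2 h5.symm) hp'
    have hupos : 1 ≤ u := by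
      rcases Nat.eq_zero_or_pos u with h0 | h0
      · rw [h0, zero_pow hk0] at hu; omega
      · exact h0
    have hVpos : 1 ≤ V := by
      rcases Nat.eq_zero_or_pos V with h0 | h0
      · rw [h0, zero_pow hk0] at hV; omega
      · exact h0
    refine ⟨u, V, ?_, hupos, hVpos, ?_, ?_, ?_, hu, hV⟩
    · have h6 : (u * V) ^ k = c ^ k := by rw [mul_pow, ← hu, ← hV, hp]
      exact (Nat.pow_left_injective hk0 h6).symm
    · rw [hu, hV] at h5
      exact (Nat.coprime_pow_left_iff (by omega) _ _).1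
        ((Nat.coprime_pow_right_iff (by omega) _ _).1 h5)
    · intro h7
      have h8 : 2 ∣ u ^ k := dvd_pow h7 hk0
      rw [← hu] at h8
      omega
    · rw [← hV]
      obtain ⟨t, ht⟩ := Nat.dvd_of_mod_eq_zero hse
      exact ⟨t, by omega⟩
  rcases Nat.mod_two_eq_zero_or_one r with hr0 | hr0
  · -- `s` odd, `r` even
    obtain ⟨u, V, h1, h2, h3, h4, h5, h6, h7, h8⟩ :=
      core s r (by omega) hr0 hs1 hr1 hcop.symm (by rw [← hprod]; ring)
    refine ⟨u, V, h1, h2, h3, h4, h5, h6, ?_, Or.inl ?_⟩ <;> omega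
  · obtain ⟨u, V, h1, h2, h3, h4, h5, h6, h7, h8⟩ :=
      core r s hr0 (by omega) hr1 hs1 hcop hprod
    refine ⟨u, V, h1, h2, h3, h4, h5, h6, ?_, Or.inr ?_⟩ <;> omega

end Pool.Agent.Work.MP_2738db_nt_C.helper2
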